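import Mathlib
import Pool.Agent.V11158.Walk

open Matrix Cardinal Pool.Agent.V11158

namespace Pool.Agent.Results.MP_d3aff2_co.InfiniteReplacement

/-- The coloring `c` is distinguishing: only the identity of `Γ` preserves it. -/
def Distinguishing {X K : Type} (Γ : Subgroup (Equiv.Perm X)) (c : X → K) : Prop :=
  ∀ g ∈ Γ, (∀ x, c (g x) = c x) → g = 1

/-- The distinguishing number. -/
noncomputable def distNumber {X : Type} (Γ : Subgroup (Equiv.Perm X)) : ℕ :=
  sInf {k : ℕ | 1 ≤ k ∧ ∃ c : X → Fin k, Distinguishing Γ c}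

/-- Every `k`-coloring can be made distinguishing by changing the colors of at most `m` points. -/
def Replaceable {X : Type} (Γ : Subgroup (Equiv.Perm X)) (k m : ℕ) : Prop :=
  ∀ c : X → Fin k, ∃ c' : X → Fin k, {x | c' x ≠ c x}.encard ≤ m ∧ Distinguishing Γ c'

/-- The replacement number (`⊤` stands for infinity). -/
noncomputable def replNumber {X : Type} (Γ : Subgroup (Equiv.Perm X)) : ℕ∞ :=
  sInf {r : ℕ∞ | ∃ m : ℕ, r = m ∧ Replaceable Γ (distNumber Γ) m}

/-- The group `E(n)` of all isometries of `ℝⁿ`. -/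
def euclideanGroup (n : ℕ) : Subgroup (Equiv.Perm (EuclideanSpace ℝ (Fin n))) where
  carrier := {g | Isometry g}
  mul_mem' := by
    intro a b ha hb
    rw [Set.mem_ofPred_eq] at *
    rw [Equiv.Perm.coe_mul]
    exact Isometry.comp ha hb
  one_mem' := isometry_id
  inv_mem' := by
    intro g hg x y
    have := hg (g⁻¹ x) (g⁻¹ y)
    simpa using this.symm

lemma mem_euclideanGroup {n : ℕ} (g : Equiv.Perm (EuclideanSpace ℝ (Fin n))) :
    g ∈ euclideanGroup n ↔ Isometry g := Iff.rfl

section reflections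

variable {n : ℕ} (hn : 3 ≤ n)

/-- the first three coordinates -/
def pr (x : EuclideanSpace ℝ (Fin n)) : Fin 3 → ℝ := fun k => x (Fin.castLE hn k)

/-- extension by zero -/
noncomputable def inc (y : Fin 3 → ℝ) : EuclideanSpace ℝ (Fin n) :=
  ∑ k, y k • EuclideanSpace.single (Fin.castLE hn k) (1 : ℝ)

lemma inner_inc (y : Fin 3 → ℝ) (x : EuclideanSpace ℝ (Fin n)) :
    inner ℝ (inc hn y) x = y ⬝ᵥ pr hn x := by
  unfold inc dotProduct pr
  rw [sum_inner]
  apply Finset.sum_congr rfl
  intro k _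
  rw [inner_smul_left, EuclideanSpace.inner_single_left]
  simp

lemma pr_inc (y : Fin 3 → ℝ) : pr hn (inc hn y) = y := by
  funext j
  unfold pr inc
  simp [Fin.sum_univ_three]
  fin_cases j <;> simp

lemma norm_inc (y : Fin 3 → ℝ) : ‖inc hn y‖ ^ 2 = y ⬝ᵥ y := by
  rw [← real_inner_self_eq_norm_sq, inner_inc, pr_inc]

/-- the reflection -/
noncomputable def gam (a : ℝ × ℝ) : EuclideanSpace ℝ (Fin n) ≃ₗᵢ[ℝ] EuclideanSpace ℝ (Fin n) :=
  (Submodule.span ℝ {inc hn (ax a)})ᗮ.reflection

lemma gam_apply (a : ℝ × ℝ) (x : EuclideanSpace ℝ (Fin n)) :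
    gam hn a x = x - (2 * (ax a ⬝ᵥ pr hn x) / (ax a ⬝ᵥ ax a)) • inc hn (ax a) := by
  unfold gam
  rw [Submodule.reflection_orthogonal_apply, Submodule.reflection_singleton_apply, inner_inc]
  have : ((‖inc hn (ax a)‖ : ℝ) : ℝ) ^ 2 = ax a ⬝ᵥ ax a := norm_inc hn _
  rw [RCLike.ofReal_real_eq_id, id, this]
  module

lemma gam_gam (a : ℝ × ℝ) (x : EuclideanSpace ℝ (Fin n)) : gam hn a (gam hn a x) = x :=
  Submodule.reflection_reflection _ _

lemma pr_gam (a : ℝ × ℝ) (x : EuclideanSpace ℝ (Fin n)) :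
    pr hn (gam hn a x) = (rm a).mulVec (pr hn x) := by
  rw [rm_mulVec, gam_apply]
  have h := pr_inc hn (ax a)
  funext k
  have hk := congrFun h k
  simp only [pr, PiLp.sub_apply, PiLp.smul_apply, smul_eq_mul, Pi.sub_apply, Pi.smul_apply] at hk ⊢
  rw [hk]

lemma gam_fix (a : ℝ × ℝ) (x : EuclideanSpace ℝ (Fin n)) (h : pr hn x = 0) :
    gam hn a x = x := by
  rw [gam_apply, h]; simp

lemma gam_ne_one (a : ℝ × ℝ) : gam hn a (inc hn (ax a)) ≠ inc hn (ax a) := by
  intro h
  have h1 := congrArg (fun x => pr hn x 2) h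
  simp only [pr_gam, pr_inc, rm_mulVec] at h1
  have hpos := (ax_dot_pos a).ne'
  simp only [Pi.sub_apply, Pi.smul_apply, smul_eq_mul, mul_div_assoc, div_self hpos] at h1
  simp [ax] at h1

end reflections

/-- The coloring whose countable changes are never distinguishing. -/
theorem bad_coloring (n : ℕ) (hn : 3 ≤ n) :
    ∃ c : EuclideanSpace ℝ (Fin n) → Fin 2, ∀ c' : EuclideanSpace ℝ (Fin n) → Fin 2,
      {x | c' x ≠ c x}.Countable → ¬ Distinguishing (euclideanGroup n) c' := by
  classical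
  set X := EuclideanSpace ℝ (Fin n) with hX
  -- the index type
  let I : Type := Cardinal.continuum.{0}.ord.ToType
  have hIc : #I = 𝔠 := Cardinal.mk_ord_toType _
  have hIio : ∀ i : I, #(Set.Iio i) < 𝔠 := by
    intro i
    have := Cardinal.mk_Iio_lt i (by rw [hIc]; simp [I])
    rwa [hIc] at this
  have hXc : #X = 𝔠 := by
    rw [hX, Cardinal.mk_congr (WithLp.equiv 2 (Fin n → ℝ)), ← Cardinal.power_def, Cardinal.mk_real,
      Cardinal.mk_fin, Cardinal.power_natCast]
    exact Cardinal.power_nat_eq Cardinal.aleph0_le_continuum (by omega)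
  have hsets : #{t : Set X // #t ≤ ℵ₀} ≤ #I := by
    refine (Cardinal.mk_bounded_set_le X ℵ₀).trans ?_
    rw [hXc, hIc, max_eq_left Cardinal.aleph0_le_continuum, Cardinal.continuum_power_aleph0]
  have : Nonempty {t : Set X // #t ≤ ℵ₀} := ⟨⟨∅, by simp⟩⟩
  obtain ⟨e, he⟩ : ∃ e : I → {t : Set X // #t ≤ ℵ₀}, Function.Surjective e := by
    obtain ⟨f⟩ := (Cardinal.le_def _ _).mp hsets
    exact ⟨Function.invFun f, Function.invFun_surjective f.injective⟩
  -- the point sets
  let b : Fin 3 → ℝ := ![1, 0, 0]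
  have hb : b ≠ 0 := by
    intro h
    have := congrFun h 0
    simp [b] at this
  let Q : I → Set (Fin 3 → ℝ) := fun i => {b} ∪ ⋃ j : Set.Iic i, (pr hn) '' (e j.1).1
  let P : I → Set (Fin 3 → ℝ) := fun i => {p | p ≠ 0 ∧ (p ∈ Q i ∨ -p ∈ Q i)}
  have hQmono : Monotone Q := by
    intro i j hij
    apply Set.union_subset_union_right
    intro x hx
    simp only [Set.mem_iUnion] at hx ⊢
    obtain ⟨k, hk⟩ := hx
    exact ⟨⟨k.1, le_trans k.2 hij⟩, hk⟩
  have hPmono : Monotone P := by
    intro i j hij p hp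
    exact ⟨hp.1, hp.2.imp (fun h => hQmono hij h) (fun h => hQmono hij h)⟩
  have hQc : ∀ i, #(Q i) < 𝔠 := by
    intro i
    have hIic : #(Set.Iic i) < 𝔠 := by
      have : Set.Iic i = insert i (Set.Iio i) := by
        ext j; simp [le_iff_eq_or_lt]
      rw [this]
      refine lt_of_le_of_lt (Cardinal.mk_insert_le) ?_
      exact Cardinal.add_lt_of_lt Cardinal.aleph0_le_continuum (hIio i)
        (lt_of_lt_of_le Cardinal.one_lt_aleph0 Cardinal.aleph0_le_continuum)
    refine lt_of_le_of_lt (Cardinal.mk_union_le _ _) ?_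
    apply Cardinal.add_lt_of_lt Cardinal.aleph0_le_continuum
    · rw [Cardinal.mk_singleton]
      exact (lt_of_lt_of_le Cardinal.one_lt_aleph0 Cardinal.aleph0_le_continuum)
    · refine lt_of_le_of_lt (Cardinal.mk_iUnion_le _) ?_
      apply Cardinal.mul_lt_of_lt Cardinal.aleph0_le_continuum hIic
      refine lt_of_le_of_lt (ciSup_le' fun j => ?_) Cardinal.aleph0_lt_continuum
      exact Cardinal.mk_image_le.trans (e j.1).2
  have hPc : ∀ i, #(P i) < 𝔠 := by
    intro i
    have hsub : P i ⊆ Q i ∪ (fun p => -p) '' Q i := by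
      rintro p ⟨-, hp | hp⟩
      · exact Or.inl hp
      · exact Or.inr ⟨-p, hp, neg_neg p⟩
    refine lt_of_le_of_lt (Cardinal.mk_le_mk_of_subset hsub) ?_
    refine lt_of_le_of_lt (Cardinal.mk_union_le _ _) ?_
    exact Cardinal.add_lt_of_lt Cardinal.aleph0_le_continuum (hQc i)
      (lt_of_le_of_lt Cardinal.mk_image_le (hQc i))
  obtain ⟨v, hv⟩ := generic P hIio hPc (fun i => ⟨b, hb, Or.inl (Or.inl rfl)⟩)
    (fun i p hp => hp.1) (fun i p hp => ⟨neg_ne_zero.mpr hp.1, by
      rw [neg_neg]; exact hp.2.symm⟩)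
  let γ : I → X → X := fun i x => gam hn (v i) x
  obtain ⟨c, hc⟩ := generic_potential (γ := γ) (pr := pr hn) (v := v)
    (fun i x => gam_gam hn (v i) x) (fun i x => pr_gam hn (v i) x)
    (fun i x h => gam_fix hn (v i) x h) P hPmono hv (fun i => (e i).1)
    (fun i x hx h0 => ⟨h0, Or.inl (Or.inr (by
      rw [Set.mem_iUnion]
      exact ⟨⟨i, Set.mem_Iic.mpr le_rfl⟩, x, hx, rfl⟩))⟩)
  refine ⟨c, fun c' hc' hdist => ?_⟩
  obtain ⟨i, hi⟩ := he ⟨{x | c' x ≠ c x}, Cardinal.le_aleph0_iff_set_countable.mpr hc'⟩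
  have hi' : (e i).1 = {x | c' x ≠ c x} := by rw [hi]
  -- the changed coloring
  have hc'x : ∀ x, c' x = c x + ind (fun i => (e i).1) i x := by
    intro x
    unfold ind
    by_cases hx : c' x = c x
    · rw [if_neg, hx, add_zero]
      change x ∉ (e i).1
      rw [hi']
      simpa using hx
    · rw [if_pos]
      · have : ∀ a b : Fin 2, a ≠ b → a = b + 1 := by decide
        exact this _ _ hx
      · change x ∈ (e i).1
        rw [hi']
        exact hx
  have hinv : ∀ x, c' (γ i x) = c' x := by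
    intro x
    rw [hc'x, hc'x, hc]
    have := zmod2_add_self (ind (fun i => (e i).1) i (γ i x))
    linear_combination this
  have h1 := hdist (gam hn (v i)).toLinearEquiv.toEquiv (gam hn (v i)).isometry hinv
  apply gam_ne_one hn (v i)
  exact congrArg (fun g : Equiv.Perm X => g (inc hn (ax (v i)))) h1

/-! ### the distinguishing number -/

/-- The points `0, e_0, 2 e_1, …`. -/
noncomputable def zp (n : ℕ) : Option (Fin n) → EuclideanSpace ℝ (Fin n)
  | none => 0
  | some i => EuclideanSpace.single i ((i : ℝ) + 1)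

/-- The coordinate parameter. -/
noncomputable def za (n : ℕ) : Option (Fin n) → ℝ
  | none => 0
  | some i => (i : ℝ) + 1

lemma za_inj {n : ℕ} {a b : Option (Fin n)} (h : (za n a) ^ 2 = (za n b) ^ 2) : a = b := by
  rcases a with _ | i <;> rcases b with _ | j
  · rfl
  · exfalso
    have : (0 : ℝ) < (j : ℝ) + 1 := by positivity
    simp only [za] at h
    nlinarith
  · exfalso
    have : (0 : ℝ) < (i : ℝ) + 1 := by positivity
    simp only [za] at h
    nlinarith
  · have hi : (0 : ℝ) < (i : ℝ) + 1 := by positivity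
    have hj : (0 : ℝ) < (j : ℝ) + 1 := by positivity
    simp only [za] at h
    have h2 : (i : ℝ) + 1 = (j : ℝ) + 1 := by
      exact (sq_eq_sq₀ hi.le hj.le).mp h
    have h3 : (i : ℝ) = (j : ℝ) := by linarith
    have h4 : (i : ℕ) = (j : ℕ) := by exact_mod_cast h3
    rw [Fin.ext h4]

lemma norm_zp (n : ℕ) (a : Option (Fin n)) : ‖zp n a‖ ^ 2 = za n a ^ 2 := by
  rcases a with _ | i
  · simp [zp, za]
  · simp only [zp, za, PiLp.norm_single, Real.norm_eq_abs, sq_abs]

lemma inner_zp (n : ℕ) (i : Fin n) (x : EuclideanSpace ℝ (Fin n)) :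
    inner ℝ (zp n (some i)) x = ((i : ℝ) + 1) * x i := by
  simp only [zp, EuclideanSpace.inner_single_left]
  simp

lemma dist_zp_sq (n : ℕ) (a b : Option (Fin n)) :
    dist (zp n a) (zp n b) ^ 2 = if a = b then 0 else za n a ^ 2 + za n b ^ 2 := by
  split_ifs with h
  · simp [h]
  · rw [dist_eq_norm, @norm_sub_sq_real, norm_zp, norm_zp]
    have : inner ℝ (zp n a) (zp n b) = 0 := by
      rcases a with _ | i
      · simp [zp]
      · rw [inner_zp]
        rcases b with _ | j
        · simp [zp]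
        · have hij : i ≠ j := fun h' => h (by rw [h'])
          simp [zp, hij]
    rw [this]; ring

lemma zp_sum (n : ℕ) (a : Option (Fin n)) :
    ∑ b, dist (zp n a) (zp n b) ^ 2 = (∑ b, za n b ^ 2) + ((n : ℝ) - 1) * za n a ^ 2 := by
  have h1 : ∀ b, dist (zp n a) (zp n b) ^ 2 =
      za n a ^ 2 + za n b ^ 2 - (if a = b then 2 * za n a ^ 2 else 0) := by
    intro b
    rw [dist_zp_sq]
    split_ifs with h
    · rw [← h]; ring
    · ring
  simp only [h1, Finset.sum_sub_distrib, Finset.sum_add_distrib, Finset.sum_const,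
    Finset.card_univ, Fintype.card_option, Fintype.card_fin, Finset.sum_ite_eq, Finset.mem_univ,
    if_true, nsmul_eq_mul]
  push_cast
  ring

lemma zp_inj {n : ℕ} {a b : Option (Fin n)} (h : zp n a = zp n b) : a = b := by
  apply za_inj
  rw [← norm_zp, ← norm_zp, h]

lemma fixed (n : ℕ) (g : EuclideanSpace ℝ (Fin n) → EuclideanSpace ℝ (Fin n)) (hg : Isometry g)
    (h : ∀ a, g (zp n a) = zp n a) (x : EuclideanSpace ℝ (Fin n)) : g x = x := by
  have h0 : ∀ a, dist (zp n a) (g x) = dist (zp n a) x := by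
    intro a
    conv_lhs => rw [← h a]
    exact hg.dist_eq _ _
  have hnorm : ‖g x‖ = ‖x‖ := by
    have := h0 none
    simpa [zp, dist_eq_norm] using this
  ext i
  have h1 := congrArg (fun t => t ^ 2) (h0 (some i))
  simp only [dist_eq_norm, norm_sub_sq_real, inner_zp, hnorm] at h1
  have h2 : (0 : ℝ) < (i : ℝ) + 1 := by positivity
  have h3 : ((i : ℝ) + 1) * g x i = ((i : ℝ) + 1) * x i := by linarith
  exact mul_left_cancel₀ h2.ne' h3

lemma two_mem (n : ℕ) (hn : 3 ≤ n) :
    ∃ c : EuclideanSpace ℝ (Fin n) → Fin 2, Distinguishing (euclideanGroup n) c := by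
  classical
  refine ⟨fun x => if x ∈ Set.range (zp n) then 1 else 0, ?_⟩
  intro g hg hc
  have hg' : Isometry g := hg
  have hr : ∀ a, ∃ b, zp n b = g (zp n a) := by
    intro a
    have := hc (zp n a)
    dsimp only at this
    rw [if_pos (Set.mem_range_self a)] at this
    by_contra hcon
    rw [if_neg (show g (zp n a) ∉ Set.range (zp n) from hcon)] at this
    exact absurd this (by decide)
  choose σ hσ using hr
  have hσinj : Function.Injective σ := by
    intro a b hab
    apply zp_inj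
    apply g.injective
    rw [← hσ, ← hσ, hab]
  have hσbij : Function.Bijective σ := (Finite.injective_iff_bijective).mp hσinj
  have hfix : ∀ a, σ a = a := by
    intro a
    have h1 : ∑ b, dist (zp n (σ a)) (zp n b) ^ 2 = ∑ b, dist (zp n a) (zp n b) ^ 2 := by
      rw [← Equiv.sum_comp (Equiv.ofBijective σ hσbij)]
      apply Finset.sum_congr rfl
      intro b _
      rw [Equiv.ofBijective_apply, hσ, hσ, hg'.dist_eq]
    rw [zp_sum, zp_sum] at h1
    have hn' : (0 : ℝ) < (n : ℝ) - 1 := by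
      have : (3 : ℝ) ≤ n := by exact_mod_cast hn
      linarith
    apply za_inj
    have h2 : ((n : ℝ) - 1) * za n (σ a) ^ 2 = ((n : ℝ) - 1) * za n a ^ 2 := by linarith
    exact mul_left_cancel₀ hn'.ne' h2
  ext1 x
  apply fixed n g hg'
  intro a
  rw [← hσ, hfix]

lemma dist_two (n : ℕ) (hn : 3 ≤ n) : distNumber (euclideanGroup n) = 2 := by
  have h2 : 2 ∈ {k : ℕ | 1 ≤ k ∧ ∃ c : EuclideanSpace ℝ (Fin n) → Fin k,
      Distinguishing (euclideanGroup n) c} := ⟨by norm_num, two_mem n hn⟩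
  apply le_antisymm (Nat.sInf_le h2)
  apply le_csInf ⟨2, h2⟩
  rintro k ⟨hk1, c, hc⟩
  by_contra hlt
  have hk : k = 1 := by omega
  subst hk
  have h1 := hc (gam hn 0).toLinearEquiv.toEquiv (gam hn 0).isometry
    (fun x => Subsingleton.elim _ _)
  apply gam_ne_one hn 0
  exact congrArg (fun g : Equiv.Perm _ => g (inc hn (ax 0))) h1

/-- For every `n ≥ 3` the distinguishing number of `ℝⁿ` under `E(n)` is `2`, the replacement number
is infinite, and there is even one `2`-coloring of `ℝⁿ` that no change of countably many colors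
makes distinguishing. -/
theorem result (n : ℕ) (hn : 3 ≤ n) :
    distNumber (euclideanGroup n) = 2 ∧ replNumber (euclideanGroup n) = ⊤ ∧
    ∃ c : EuclideanSpace ℝ (Fin n) → Fin 2, ∀ c' : EuclideanSpace ℝ (Fin n) → Fin 2,
      {x | c' x ≠ c x}.Countable → ¬ Distinguishing (euclideanGroup n) c' := by
  obtain ⟨c, hc⟩ := bad_coloring n hn
  refine ⟨dist_two n hn, ?_, c, hc⟩
  unfold replNumber
  rw [dist_two n hn, sInf_eq_top]
  rintro r ⟨m, -, hm⟩
  exfalso
  obtain ⟨c', hc', hd⟩ := hm c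
  apply hc c' _ hd
  apply Set.Finite.countable
  exact Set.finite_of_encard_le_coe hc'

end Pool.Agent.Results.MP_d3aff2_co.InfiniteReplacement
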